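import Pool.Agent.H2.ST.Targets

/-!
Symplectic torus actions on affine space, row EUL: the Euler derivation of a grading is Hamiltonian
-/

set_option autoImplicit false

open Pool.Agent.H2.ST MvPolynomial

namespace Pool.Agent.H21.ST2

section

variable {k A Γ : Type} [Field k] [CommRing A] [Algebra k A] [AddCommGroup Γ]
  {W : Γ → Submodule k A}

/-- an additive property of the homogeneous elements holds for all elements -/
theorem hom_ind (h : Gr W) {P : A → Prop} (h0 : P 0) (hadd : ∀ a b, P a → P b → P (a + b))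
    (hW : ∀ a, ∀ f ∈ W a, P f) (f : A) : P f := by
  rw [← cmp_sum h f]
  unfold Finsupp.sum
  exact Finset.sum_induction _ P hadd h0 fun a _ => hW a _ (cmp_mem h f a)

/-- the Euler map -/
noncomputable def theta (h : Gr W) (π : Γ →+ k) : A →ₗ[k] A :=
  (Finsupp.lsum k fun a => (π a) • (LinearMap.id : A →ₗ[k] A)) ∘ₗ cmp h

theorem theta_mem (h : Gr W) (π : Γ →+ k) {a : Γ} {f : A} (hf : f ∈ W a) :
    theta h π f = π a • f := by
  unfold theta
  rw [LinearMap.comp_apply, cmp_of_mem h hf, Finsupp.lsum_single]
  rfl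

theorem theta_mul (h : Gr W) (π : Γ →+ k) (f g : A) :
    theta h π (f * g) = f • theta h π g + g • theta h π f := by
  simp only [smul_eq_mul]
  refine hom_ind h (P := fun f => theta h π (f * g) = f * theta h π g + g * theta h π f)
    ?_ ?_ ?_ f
  · simp
  · intro a b ha hb
    rw [add_mul, map_add, ha, hb, map_add]
    ring
  · intro a f hf
    refine hom_ind h (P := fun g => theta h π (f * g) = f * theta h π g + g * theta h π f)
      ?_ ?_ ?_ g
    · simp
    · intro c d hc hd
      rw [mul_add, map_add, hc, hd, map_add]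
      ring
    · intro b g hg
      rw [theta_mem h π (h.mul _ _ _ _ hf hg), theta_mem h π hf, theta_mem h π hg, map_add,
        add_smul, mul_smul_comm, mul_smul_comm, mul_comm g f, add_comm]

end

section

variable {k Γ : Type} [Field k] [AddCommGroup Γ] {m : ℕ} {W : Γ → Submodule k (Pol k m)}

theorem theta_br (h : PGr W) (π : Γ →+ k) (f g : Pol k m) :
    theta h.toGr π (br f g) = br (theta h.toGr π f) g + br f (theta h.toGr π g) := by
  refine hom_ind h.toGr (P := fun f => theta h.toGr π (br f g) =
    br (theta h.toGr π f) g + br f (theta h.toGr π g)) ?_ ?_ ?_ f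
  · rw [zero_br, map_zero, zero_br, zero_br, add_zero]
  · intro a b ha hb
    rw [add_br, map_add, ha, hb, map_add, add_br, add_br]
    ring
  · intro a f hf
    refine hom_ind h.toGr (P := fun g => theta h.toGr π (br f g) =
      br (theta h.toGr π f) g + br f (theta h.toGr π g)) ?_ ?_ ?_ g
    · rw [br_zero, map_zero, br_zero, br_zero, add_zero]
    · intro c d hc hd
      rw [br_add, map_add, hc, hd, map_add, br_add, br_add]
      ring
    · intro b g hg
      rw [theta_mem h.toGr π (h.pbr _ _ _ _ hf hg), theta_mem h.toGr π hf,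
        theta_mem h.toGr π hg, map_add, add_smul, smul_br, br_smul]

/-- components of a bracket with a homogeneous element -/
theorem cmp_br_of_mem (h : PGr W) {b : Γ} {g : Pol k m} (hg : g ∈ W b) (f : Pol k m) (a : Γ) :
    cmp h.toGr (br f g) (a + b) = br (cmp h.toGr f a) g := by
  classical
  let c : Γ →₀ Pol k m := (cmp h.toGr f).sum fun a x => Finsupp.single (a + b) (br x g)
  have hc : ∀ a, c (a + b) = br (cmp h.toGr f a) g := by
    intro a
    simp only [c]
    rw [Finsupp.sum, Finsupp.finsetSum_apply]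
    simp only [Finsupp.single_apply]
    rw [Finset.sum_eq_single a]
    · rw [if_pos rfl]
    · intro a' _ ha'
      rw [if_neg (fun h => ha' (add_right_cancel h))]
    · intro ha
      rw [if_pos rfl, Finsupp.notMem_support_iff.1 ha, zero_br]
  have h1 : cmp h.toGr (br f g) = c := by
    refine cmp_uniq h.toGr _ c (fun a' => ?_) ?_
    · have := hc (a' - b)
      rw [sub_add_cancel] at this
      rw [this]
      have h2 := h.pbr _ _ _ _ (cmp_mem h.toGr f (a' - b)) hg
      rwa [sub_add_cancel] at h2
    · simp only [c]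
      rw [Finsupp.sum_sum_index (fun _ => rfl) (fun _ _ _ => rfl)]
      have h3 : ((cmp h.toGr f).sum fun a x => (Finsupp.single (a + b) (br x g)).sum fun _ y => y) =
          (cmp h.toGr f).sum fun _ x => br x g := by
        refine Finsupp.sum_congr fun a _ => ?_
        rw [Finsupp.sum_single_index rfl]
      rw [h3]
      conv_rhs => rw [← cmp_sum h.toGr f]
      unfold Finsupp.sum
      rw [sum_br]
  rw [h1, hc]

end

/-- the dual coordinates -/
noncomputable def Yc (k : Type) [Field k] (m : ℕ) : Fin m ⊕ Fin m → Pol k m :=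
  Sum.elim (fun j => X (Sum.inr j)) (fun j => -X (Sum.inl j))

theorem pd_Y {k : Type} [Field k] {m : ℕ} (s : Fin m ⊕ Fin m) (f : Pol k m) :
    pderiv s f = br f (Yc k m s) := by
  rcases s with j | j
  · exact (br_inr f j).symm
  · change _ = br f (-X (Sum.inl j))
    rw [br_neg, br_inl, neg_neg]

theorem Y_const {k : Type} [Field k] {m : ℕ} (s t : Fin m ⊕ Fin m) :
    ∃ c : k, br (Yc k m s) (Yc k m t) = C c := by
  classical
  rw [← pd_Y]
  rcases s with j | j
  · change ∃ c : k, pderiv t (X (Sum.inr j)) = C c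
    rw [pderiv_X]
    by_cases h : (Sum.inr j : Fin m ⊕ Fin m) = t
    · rw [← h, Pi.single_eq_same]
      exact ⟨1, C_1.symm⟩
    · rw [Pi.single_eq_of_ne h]
      exact ⟨0, C_0.symm⟩
  · change ∃ c : k, pderiv t (-X (Sum.inl j)) = C c
    rw [map_neg, pderiv_X]
    by_cases h : (Sum.inl j : Fin m ⊕ Fin m) = t
    · rw [← h, Pi.single_eq_same]
      exact ⟨-1, by rw [C_neg, C_1]⟩
    · rw [Pi.single_eq_of_ne h]
      exact ⟨0, by rw [C_0, neg_zero]⟩

/-- **Row EUL.** -/
theorem pf_EUL (h1 : T_POI) : T_EUL := by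
  classical
  intro k _ _ m Γ _ W π h
  have hg := h.toGr
  have hC : ∀ c : k, (C c : Pol k m) ∈ W 0 := fun c => algebraMap_mem_gr hg c
  have hC0 : ∀ c : k, theta hg π (C c : Pol k m) = 0 := by
    intro c
    rw [theta_mem hg π (hC c), map_zero, zero_smul]
  obtain ⟨H1, hH1⟩ := h1 k (Fin m ⊕ Fin m) (fun s => theta hg π (Yc k m s)) (by
    intro i j
    obtain ⟨c, hc⟩ := Y_const (k := k) j i
    have h2 := theta_br h π (Yc k m j) (Yc k m i)
    rw [hc, hC0] at h2
    rw [pd_Y, pd_Y, br_anti (theta hg π (Yc k m i))]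
    exact eq_neg_of_add_eq_zero_left h2.symm)
  have hY : ∀ s, br H1 (Yc k m s) = theta hg π (Yc k m s) := fun s => by
    rw [← pd_Y]
    exact hH1 s
  let D : Derivation k (Pol k m) (Pol k m) := Derivation.mk' (theta hg π) (theta_mul hg π)
  have hD : ∀ f, D f = theta hg π f := fun f => rfl
  have hDad : ad H1 = D := by
    apply MvPolynomial.derivation_ext
    intro s
    rw [ad_apply, hD]
    rcases s with j | j
    · have h3 := hY (Sum.inr j)
      change br H1 (-X (Sum.inl j)) = theta hg π (-X (Sum.inl j)) at h3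
      rw [br_neg, map_neg] at h3
      exact neg_injective h3
    · exact hY (Sum.inl j)
  have hall : ∀ f, br H1 f = theta hg π f := by
    intro f
    rw [← ad_apply, hDad, hD]
  have hcmp : ∀ a, a ≠ 0 → cmp hg H1 a = 0 := by
    intro a ha
    have h4 : ∀ f, br (cmp hg H1 a) f = 0 := by
      intro f
      refine hom_ind hg (P := fun f => br (cmp hg H1 a) f = 0) (br_zero _) ?_ ?_ f
      · intro u v hu hv
        rw [br_add, hu, hv, add_zero]
      · intro b f hf
        rw [← cmp_br_of_mem h hf, hall, theta_mem hg π hf,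
          cmp_of_mem hg ((W b).smul_mem _ hf), Finsupp.single_apply, if_neg]
        intro h5
        exact ha (by simpa using h5.symm)
    obtain ⟨c, hc⟩ := const_of_br (cmp hg H1 a) fun s => h4 _
    have h5 := h.van a ha _ (cmp_mem hg H1 a)
    rw [hc, constantCoeff_C] at h5
    rw [hc, h5, C_0]
  have hH0 : H1 ∈ W 0 := mem_of_cmp hg hcmp
  refine ⟨H1 - C (constantCoeff H1), (W 0).sub_mem hH0 (hC _), ?_, ?_⟩
  · rw [map_sub, constantCoeff_C, sub_self]
  · intro a f hf
    rw [sub_br, C_br, sub_zero, hall, theta_mem hg π hf]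

end Pool.Agent.H21.ST2
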